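import Mathlib

/-!
# Class (c): the algebraic part of the evaluation (helper75)
-/

set_option autoImplicit false

namespace Pool.Agent.L0h75.F5

/-- the rational function -/
noncomputable def ff (c r g : ℂ) : ℂ :=
  (c * (((1 + r) * (2 + g)) ^ 2 - 2 * ((1 + r) * (2 + g)) - 4) +
    ((1 + r) * (2 + g)) * (2 + (1 + r) * (2 + g)) ^ 2 / 4) /
  (c ^ 2 + c * (((1 + r) * (2 + g)) ^ 3 - 3 * ((1 + r) * (2 + g)) ^ 2 - 6 * ((1 + r) * (2 + g))) / 4 +
    (2 + (1 + r) * (2 + g)) ^ 3 / 16)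

/-- numerator and denominator, reduced -/
noncomputable def nn (c r g : ℂ) : ℂ :=
  152 + 62 * g + 88 * r + 36 * (r * g) + (32 + 14 * g + 16 * r + 6 * (r * g)) * c

noncomputable def dd (c r g : ℂ) : ℂ :=
  89 / 2 + 18 * g + 51 / 2 * r + 21 / 2 * (r * g) +
    (77 + 63 / 2 * g + 48 * r + 39 / 2 * (r * g)) * c + c ^ 2

noncomputable def bb (c r : ℂ) : ℂ :=
  5 / 2 + 3 / 2 * r + (22 + 18 * r) * c + (132 + 72 * r) * c ^ 2 + (154 + 96 * r) * c ^ 3 + c ^ 4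

noncomputable def aa (c r : ℂ) : ℂ :=
  10 + 6 * r + (48 + 24 * r) * c + (120 + 84 * r) * c ^ 2 + (28 + 12 * r) * c ^ 3

/-- the norm of the denominator -/
noncomputable def ph (c : ℂ) : ℂ :=
  1 + 104 * c + 952 * c ^ 2 + 4124 * c ^ 3 + 3430 * c ^ 4 + 1544 * c ^ 5 + 7336 * c ^ 6 -
    616 * c ^ 7 - 2 * c ^ 8

noncomputable def m1 (c : ℂ) : ℂ :=
  1 + 46 * c + 147 * c ^ 2 + 458 * c ^ 3 + 923 * c ^ 4 + 2280 * c ^ 5 - 488 * c ^ 6 - 14 * c ^ 7

noncomputable def m2 (c : ℂ) : ℂ :=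
  30 * c + 117 * c ^ 2 + 324 * c ^ 3 - 651 * c ^ 4 - 504 * c ^ 5 + 378 * c ^ 6 - 6 * c ^ 7

lemma ff_eq {c r g : ℂ} (hr : r ^ 2 = 3) (hg : g ^ 2 = 6) : ff c r g = nn c r g / dd c r g := by
  have hr3 : r ^ 3 = 3 * r := by rw [pow_succ, hr]
  have hg3 : g ^ 3 = 6 * g := by rw [pow_succ, hg]
  unfold ff nn dd
  congr 1
  · ring_nf
    simp only [hr, hg, hr3, hg3]
    ring
  · ring_nf
    simp only [hr, hg, hr3, hg3]
    ring

lemma dd_mul {c r g : ℂ} (hr : r ^ 2 = 3) (hg : g ^ 2 = 6) :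
    dd c r g * dd c r (-g) = bb c r := by
  unfold dd bb
  ring_nf
  simp only [hr, hg]
  ring

lemma nn_sub {c r g : ℂ} (hr : r ^ 2 = 3) (hg : g ^ 2 = 6) :
    nn c r g * dd c r (-g) - nn c r (-g) * dd c r g = g * aa c r := by
  unfold dd nn aa
  ring_nf
  simp only [hr]
  ring

lemma bb_mul {c r : ℂ} (hr : r ^ 2 = 3) : bb c r * bb c (-r) = -(ph c) / 2 := by
  unfold bb ph
  ring_nf
  simp only [hr]
  ring

lemma aa_add {c r : ℂ} (hr : r ^ 2 = 3) :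
    aa c r * bb c (-r) + aa c (-r) * bb c r = -4 * m1 c := by
  unfold aa bb m1
  ring_nf
  simp only [hr]
  ring

lemma aa_sub {c r : ℂ} (hr : r ^ 2 = 3) :
    aa c r * bb c (-r) - aa c (-r) * bb c r = -4 * r * m2 c := by
  unfold aa bb m2
  ring_nf

theorem ff_sums {c r g : ℂ} (hr : r ^ 2 = 3) (hg : g ^ 2 = 6) (h0 : ph c ≠ 0) :
    ff c r g - ff c r (-g) + ff c (-r) g - ff c (-r) (-g) = 8 * g * m1 c / ph c ∧
    ff c r g - ff c r (-g) - ff c (-r) g + ff c (-r) (-g) = 8 * g * r * m2 c / ph c := by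
  have hr' : (-r) ^ 2 = 3 := by rw [neg_sq]; exact hr
  have hg' : (-g) ^ 2 = 6 := by rw [neg_sq]; exact hg
  have hbb := bb_mul (c := c) hr
  have hb : bb c r * bb c (-r) ≠ 0 := by
    rw [hbb]
    exact div_ne_zero (neg_ne_zero.2 h0) two_ne_zero
  have hb1 := left_ne_zero_of_mul hb
  have hb2 := right_ne_zero_of_mul hb
  have key : ∀ s : ℂ, s ^ 2 = 3 → bb c s ≠ 0 → ff c s g - ff c s (-g) = g * aa c s / bb c s := by
    intro s hs hbs
    have h1 := dd_mul (c := c) hs hg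
    have h2 : dd c s g * dd c s (-g) ≠ 0 := by rw [h1]; exact hbs
    have h3 := left_ne_zero_of_mul h2
    have h4 := right_ne_zero_of_mul h2
    rw [ff_eq hs hg, ff_eq hs hg', div_sub_div _ _ h3 h4, h1]
    congr 1
    have h5 := nn_sub (c := c) hs hg
    rw [← h5]
    ring
  have k1 := key r hr hb1
  have k2 := key (-r) hr' hb2
  have e1 := aa_add (c := c) hr
  have e2 := aa_sub (c := c) hr
  constructor
  · have : ff c r g - ff c r (-g) + ff c (-r) g - ff c (-r) (-g) =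
        (ff c r g - ff c r (-g)) + (ff c (-r) g - ff c (-r) (-g)) := by ring
    rw [this, k1, k2, div_add_div _ _ hb1 hb2, div_eq_div_iff hb h0, hbb]
    linear_combination g * ph c * e1
  · have : ff c r g - ff c r (-g) - ff c (-r) g + ff c (-r) (-g) =
        (ff c r g - ff c r (-g)) - (ff c (-r) g - ff c (-r) (-g)) := by ring
    rw [this, k1, k2, div_sub_div _ _ hb1 hb2, div_eq_div_iff hb h0, hbb]
    linear_combination g * ph c * e2

section val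

variable {Γ : Type*} [LinearOrderedCommGroupWithZero Γ] {v : Valuation ℂ Γ}

lemma v_two_mul (t2 : v 2 < 1) {z : ℂ} (hz : v z ≤ 1) : v (2 * z) < 1 := by
  rw [map_mul]
  exact mul_lt_one_of_lt_of_le t2 hz

/-- quotients of integral numbers -/
lemma v_quot (t2 : v 2 < 1) {N T P W : ℂ} (hP : v (P - 1) < 1) (hW : v W ≤ 1)
    (h : N - T * P = 2 * W) : v (N / P - T) < 1 := by
  have hP1 : v P = 1 := by
    have h1 : v (P - 1) < v 1 := by rwa [map_one]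
    have h2 := v.map_add_eq_of_lt_right h1
    rw [sub_add_cancel, map_one] at h2
    exact h2
  have hP0 : P ≠ 0 := by
    rintro rfl
    rw [map_zero] at hP1
    exact zero_ne_one hP1
  have e : N / P - T = 2 * W / P := by
    field_simp
    linear_combination h
  rw [e, map_div₀, hP1, div_one]
  exact v_two_mul t2 hW

theorem ph_near (t2 : v 2 < 1) {c : ℂ} (hc : v c ≤ 1) : v (ph c - 1) < 1 := by
  have e : ph c - 1 = 2 * (52 * c + 476 * c ^ 2 + 2062 * c ^ 3 + 1715 * c ^ 4 + 772 * c ^ 5 +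
      3668 * c ^ 6 - 308 * c ^ 7 - c ^ 8) := by
    unfold ph
    ring
  rw [e]
  apply v_two_mul t2
  have hc' : c ∈ v.integer := hc
  show _ ∈ v.integer
  have h1 := pow_mem hc' 2
  have h2 := pow_mem hc' 3
  have h3 := pow_mem hc' 4
  have h4 := pow_mem hc' 5
  have h5 := pow_mem hc' 6
  have h6 := pow_mem hc' 7
  have h7 := pow_mem hc' 8
  refine sub_mem (sub_mem (add_mem (add_mem (add_mem (add_mem (add_mem (mul_mem ?_ hc')
    (mul_mem ?_ h1)) (mul_mem ?_ h2)) (mul_mem ?_ h3)) (mul_mem ?_ h4)) (mul_mem ?_ h5))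
    (mul_mem ?_ h6)) h7
  all_goals exact ofNat_mem _ _

theorem ph_ne (t2 : v 2 < 1) {c : ℂ} (hc : v c ≤ 1) : ph c ≠ 0 := by
  intro h
  have h1 := ph_near t2 hc
  rw [h, zero_sub, Valuation.map_neg, map_one] at h1
  exact lt_irrefl _ h1

/-- **E2, first character** -/
theorem E2a (t2 : v 2 < 1) {Y c r g : ℂ} (hY : v Y ≤ 1) (hc : c = Y ^ 2 + Y) (hr : r ^ 2 = 3)
    (hg : g ^ 2 = 6) :
    v ((2 * Y + 1) * (ff c r g - ff c r (-g) + ff c (-r) g - ff c (-r) (-g)) / (8 * g) -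
      (1 + Y ^ 2 + Y ^ 8)) < 1 := by
  have hY' : Y ∈ v.integer := hY
  have hc' : c ∈ v.integer := by
    rw [hc]
    exact add_mem (pow_mem hY' 2) hY'
  have h0 := ph_ne t2 (c := c) hc'
  have hg0 : g ≠ 0 := by
    rintro rfl
    norm_num at hg
  rw [(ff_sums hr hg h0).1]
  have e : (2 * Y + 1) * (8 * g * m1 c / ph c) / (8 * g) = (2 * Y + 1) * m1 c / ph c := by
    field_simp
  rw [e]
  set p : ℂ := 52 * c + 476 * c ^ 2 + 2062 * c ^ 3 + 1715 * c ^ 4 + 772 * c ^ 5 +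
      3668 * c ^ 6 - 308 * c ^ 7 - c ^ 8 with hp
  set q : ℂ := 23 * c + 73 * c ^ 2 + 229 * c ^ 3 + 461 * c ^ 4 + 1140 * c ^ 5 - 244 * c ^ 6 -
      7 * c ^ 7 + (2 * Y ^ 7 + 3 * Y ^ 6 + 2 * Y ^ 5 + Y ^ 4 + Y ^ 3) with hq
  have hm : m1 c = 1 + Y ^ 2 + Y ^ 8 + 2 * q := by
    rw [hq]
    unfold m1
    rw [hc]
    ring
  have hph : ph c = 1 + 2 * p := by
    rw [hp]
    unfold ph
    ring
  have hpm : p ∈ v.integer := by
    rw [hp]
    refine sub_mem (sub_mem (add_mem (add_mem (add_mem (add_mem (add_mem (mul_mem ?_ hc')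
      (mul_mem ?_ (pow_mem hc' 2))) (mul_mem ?_ (pow_mem hc' 3))) (mul_mem ?_ (pow_mem hc' 4)))
      (mul_mem ?_ (pow_mem hc' 5))) (mul_mem ?_ (pow_mem hc' 6))) (mul_mem ?_ (pow_mem hc' 7)))
      (pow_mem hc' 8)
    all_goals exact ofNat_mem _ _
  have hqm : q ∈ v.integer := by
    rw [hq]
    refine add_mem (sub_mem (sub_mem (add_mem (add_mem (add_mem (add_mem (mul_mem ?_ hc')
      (mul_mem ?_ (pow_mem hc' 2))) (mul_mem ?_ (pow_mem hc' 3))) (mul_mem ?_ (pow_mem hc' 4)))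
      (mul_mem ?_ (pow_mem hc' 5))) (mul_mem ?_ (pow_mem hc' 6))) (mul_mem ?_ (pow_mem hc' 7)))
      (add_mem (add_mem (add_mem (add_mem (mul_mem ?_ (pow_mem hY' 7)) (mul_mem ?_ (pow_mem hY' 6)))
      (mul_mem ?_ (pow_mem hY' 5))) (pow_mem hY' 4)) (pow_mem hY' 3))
    all_goals exact ofNat_mem _ _
  have hTm : 1 + Y ^ 2 + Y ^ 8 ∈ v.integer :=
    add_mem (add_mem (one_mem _) (pow_mem hY' 2)) (pow_mem hY' 8)
  refine v_quot t2 (ph_near t2 (c := c) hc') (W := q + Y * m1 c - (1 + Y ^ 2 + Y ^ 8) * p) ?_ ?_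
  · have hmm : m1 c ∈ v.integer := by
      rw [hm]
      exact add_mem hTm (mul_mem (ofNat_mem _ _) hqm)
    exact sub_mem (add_mem hqm (mul_mem hY' hmm)) (mul_mem hTm hpm)
  · rw [hph]
    linear_combination hm

/-- **E2, second character** -/
theorem E2b (t2 : v 2 < 1) {Y c r g : ℂ} (hY : v Y ≤ 1) (hc : c = Y ^ 2 + Y) (hr : r ^ 2 = 3)
    (hg : g ^ 2 = 6) :
    v ((2 * Y + 1) * (ff c r g - ff c r (-g) - ff c (-r) g + ff c (-r) (-g)) / (8 * g * r) -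
      (Y ^ 2 + Y ^ 8)) < 1 := by
  have hY' : Y ∈ v.integer := hY
  have hc' : c ∈ v.integer := by
    rw [hc]
    exact add_mem (pow_mem hY' 2) hY'
  have h0 := ph_ne t2 (c := c) hc'
  have hg0 : g ≠ 0 := by
    rintro rfl
    norm_num at hg
  have hr0 : r ≠ 0 := by
    rintro rfl
    norm_num at hr
  rw [(ff_sums hr hg h0).2]
  have e : (2 * Y + 1) * (8 * g * r * m2 c / ph c) / (8 * g * r) = (2 * Y + 1) * m2 c / ph c := by
    field_simp
  rw [e]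
  set p : ℂ := 52 * c + 476 * c ^ 2 + 2062 * c ^ 3 + 1715 * c ^ 4 + 772 * c ^ 5 +
      3668 * c ^ 6 - 308 * c ^ 7 - c ^ 8 with hp
  set q : ℂ := 15 * c + 58 * c ^ 2 + 162 * c ^ 3 - 326 * c ^ 4 - 252 * c ^ 5 + 189 * c ^ 6 -
      3 * c ^ 7 + (2 * Y ^ 7 + 3 * Y ^ 6 + 2 * Y ^ 5 + Y ^ 4 + Y ^ 3) with hq
  have hm : m2 c = Y ^ 2 + Y ^ 8 + 2 * q := by
    rw [hq]
    unfold m2
    rw [hc]
    ring
  have hph : ph c = 1 + 2 * p := by
    rw [hp]
    unfold ph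
    ring
  have hpm : p ∈ v.integer := by
    rw [hp]
    refine sub_mem (sub_mem (add_mem (add_mem (add_mem (add_mem (add_mem (mul_mem ?_ hc')
      (mul_mem ?_ (pow_mem hc' 2))) (mul_mem ?_ (pow_mem hc' 3))) (mul_mem ?_ (pow_mem hc' 4)))
      (mul_mem ?_ (pow_mem hc' 5))) (mul_mem ?_ (pow_mem hc' 6))) (mul_mem ?_ (pow_mem hc' 7)))
      (pow_mem hc' 8)
    all_goals exact ofNat_mem _ _
  have hqm : q ∈ v.integer := by
    rw [hq]
    refine add_mem (sub_mem (add_mem (sub_mem (sub_mem (add_mem (add_mem (mul_mem ?_ hc')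
      (mul_mem ?_ (pow_mem hc' 2))) (mul_mem ?_ (pow_mem hc' 3))) (mul_mem ?_ (pow_mem hc' 4)))
      (mul_mem ?_ (pow_mem hc' 5))) (mul_mem ?_ (pow_mem hc' 6))) (mul_mem ?_ (pow_mem hc' 7)))
      (add_mem (add_mem (add_mem (add_mem (mul_mem ?_ (pow_mem hY' 7)) (mul_mem ?_ (pow_mem hY' 6)))
      (mul_mem ?_ (pow_mem hY' 5))) (pow_mem hY' 4)) (pow_mem hY' 3))
    all_goals exact ofNat_mem _ _
  have hTm : Y ^ 2 + Y ^ 8 ∈ v.integer := add_mem (pow_mem hY' 2) (pow_mem hY' 8)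
  refine v_quot t2 (ph_near t2 (c := c) hc') (W := q + Y * m2 c - (Y ^ 2 + Y ^ 8) * p) ?_ ?_
  · have hmm : m2 c ∈ v.integer := by
      rw [hm]
      exact add_mem hTm (mul_mem (ofNat_mem _ _) hqm)
    exact sub_mem (add_mem hqm (mul_mem hY' hmm)) (mul_mem hTm hpm)
  · rw [hph]
    linear_combination hm

/-- **E3**, the valuation -/
theorem E3v (t2 : v 2 < 1) {Y : ℂ} (hY : v Y ≤ 1) :
    v (-(Y ^ 4 + 6 * Y ^ 3 + 12 * Y ^ 2 + 8 * Y) / (2 * Y + 1) ^ 3 - Y ^ 4) < 1 := by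
  have hY' : Y ∈ v.integer := hY
  refine v_quot t2 (P := (2 * Y + 1) ^ 3)
    (W := -(Y ^ 4 + 3 * Y ^ 3 + 6 * Y ^ 2 + 4 * Y + Y ^ 4 * (4 * Y ^ 3 + 6 * Y ^ 2 + 3 * Y))) ?_ ?_ ?_
  · have e : (2 * Y + 1) ^ 3 - 1 = 2 * (4 * Y ^ 3 + 6 * Y ^ 2 + 3 * Y) := by ring
    rw [e]
    apply v_two_mul t2
    refine add_mem (add_mem (mul_mem ?_ (pow_mem hY' 3)) (mul_mem ?_ (pow_mem hY' 2)))
      (mul_mem ?_ hY')
    all_goals exact ofNat_mem _ _
  · refine neg_mem (add_mem (add_mem (add_mem (add_mem (pow_mem hY' 4) (mul_mem ?_ (pow_mem hY' 3)))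
      (mul_mem ?_ (pow_mem hY' 2))) (mul_mem ?_ hY')) (mul_mem (pow_mem hY' 4) (add_mem (add_mem
      (mul_mem ?_ (pow_mem hY' 3)) (mul_mem ?_ (pow_mem hY' 2))) (mul_mem ?_ hY'))))
    all_goals exact ofNat_mem _ _
  · ring

end val

end Pool.Agent.L0h75.F5
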