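import Pool.Agent.L0h75.F5.E2
import Pool.Agent.Y696.Ell

/-!
# Class (c): multiplication by minus two (helper75)
-/

set_option autoImplicit false

open scoped PeriodPair

namespace Pool.Agent.L0h75.F5

open H667R3 Pool.Agent.W192.HK Pool.Agent.TH936.CM Pool.Agent.TH936.PU
open Pool.Agent.Y696

variable {L : PeriodPair} {Ω : ℂ} {Γ : Type*} [LinearOrderedCommGroupWithZero Γ]
  {v : Valuation ℂ Γ}

/-- **E3**, the formula -/
theorem E3f (hC : Cur L Ω) {R y : ℂ} (h : 2 * R ∉ L.lattice) (hy : ℘'[L] R = 2 * y + 1) :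
    (℘'[L] (-2 * R) - 1) / 2 = -(y ^ 4 + 6 * y ^ 3 + 12 * y ^ 2 + 8 * y) / (2 * y + 1) ^ 3 := by
  have h0 := two_mul_notMem_of L h
  have h1 := wp'_two L h
  have h2 := wp'_ne_zero L h
  have h3 := hC.ode h0
  rw [hC.g2] at h1
  have e : -2 * R = -(2 * R) := by ring
  rw [e, L.derivWeierstrassP_neg, h1]
  rw [hy] at h2 h3 ⊢
  set X := ℘[L] R
  have hX : X ^ 3 = y ^ 2 + y := by linear_combination -h3 / 4
  have hX6 : X ^ 6 = (y ^ 2 + y) ^ 2 := by rw [← hX]; ring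
  have e1 : (2 * (6 * X ^ 2 - 0 / 2) * (12 * X * (2 * y + 1)) * (4 * (2 * y + 1) ^ 2) -
      (6 * X ^ 2 - 0 / 2) ^ 2 * (4 * (2 * (2 * y + 1) * (6 * X ^ 2 - 0 / 2)))) =
      576 * (y ^ 2 + y) * (2 * y + 1) ^ 3 - 1728 * (y ^ 2 + y) ^ 2 * (2 * y + 1) := by
    rw [← hX6, ← hX]
    ring
  rw [e1]
  field_simp
  ring

/-- **E3** -/
theorem E3 (hC : Cur L Ω) (t2 : v 2 < 1) {R y : ℂ} (h : 2 * R ∉ L.lattice)
    (hy : ℘'[L] R = 2 * y + 1) (hv : v y ≤ 1) : v ((℘'[L] (-2 * R) - 1) / 2 - y ^ 4) < 1 := by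
  rw [E3f hC h hy]
  exact E3v t2 hv

end Pool.Agent.L0h75.F5
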